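import Mathlib
import Pool.Agent.helper5.RG.Sph

set_option autoImplicit false

/-!
# Typical volume: growth of the spheres, and balls which are trees
-/

namespace Pool.Agent.helper99.TV

open Finset
open Pool.Agent.helper5.RG

variable {V : Type*} [Fintype V] [DecidableEq V] (G : SimpleGraph V) [DecidableRel G.Adj]

/-- the number of upward neighbours -/
lemma up_card {q : ℕ} (hc : G.Connected) (hr : G.IsRegularOfDegree (q + 1)) (v x : V)
    (hx : x ≠ v) :
    (univ.filter fun z => G.Adj x z ∧ G.dist v z = G.dist v x + 1).card + W G v x = q := by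
  classical
  have hp := par_spec G hc hx
  have h1 : G.neighborFinset x = insert (par G v x)
      ((univ.filter fun z => G.Adj x z ∧ G.dist v z = G.dist v x + 1) ∪
        (univ.filter fun z => G.Adj x z ∧ G.dist v z ≤ G.dist v x ∧ z ≠ par G v x)) := by
    ext z
    simp only [SimpleGraph.mem_neighborFinset, mem_insert, mem_union, mem_filter, mem_univ,
      true_and]
    constructor
    · intro hz
      by_cases h : z = par G v x
      · exact Or.inl h
      · right
        have h3 := dist_adj_le G hc v hz
        rcases Nat.lt_or_ge (G.dist v x) (G.dist v z) with h4 | h4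
        · exact Or.inl ⟨hz, by omega⟩
        · exact Or.inr ⟨hz, h4, h⟩
    · rintro (h | h | h)
      · rw [h]; exact hp.1
      · exact h.1
      · exact h.1
  have h2 : par G v x ∉ ((univ.filter fun z => G.Adj x z ∧ G.dist v z = G.dist v x + 1) ∪
        (univ.filter fun z => G.Adj x z ∧ G.dist v z ≤ G.dist v x ∧ z ≠ par G v x)) := by
    simp only [mem_union, mem_filter, mem_univ, true_and, not_or]
    refine ⟨fun h => ?_, fun h => h.2.2 rfl⟩
    have := hp.2
    omega
  have h3 : Disjoint (univ.filter fun z => G.Adj x z ∧ G.dist v z = G.dist v x + 1)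
        (univ.filter fun z => G.Adj x z ∧ G.dist v z ≤ G.dist v x ∧ z ≠ par G v x) := by
    rw [disjoint_filter]
    intro z _ h h'
    omega
  have h4 : (G.neighborFinset x).card = q + 1 := by
    rw [SimpleGraph.card_neighborFinset_eq_degree]; exact hr x
  rw [h1, card_insert_of_notMem h2, card_union_of_disjoint h3] at h4
  have h5 : W G v x = (univ.filter fun z => G.Adj x z ∧ G.dist v z ≤ G.dist v x ∧
      z ≠ par G v x).card := rfl
  omega

/-- the number of downward neighbours -/
lemma down_card (v y : V) :
    (univ.filter fun z => G.Adj y z ∧ G.dist v z + 1 = G.dist v y).card ≤ 1 + W G v y := by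
  classical
  have h1 : (univ.filter fun z => G.Adj y z ∧ G.dist v z + 1 = G.dist v y) ⊆
      insert (par G v y)
        (univ.filter fun z => G.Adj y z ∧ G.dist v z ≤ G.dist v y ∧ z ≠ par G v y) := by
    intro z
    simp only [mem_insert, mem_filter, mem_univ, true_and]
    rintro ⟨h1, h2⟩
    by_cases h : z = par G v y
    · exact Or.inl h
    · exact Or.inr ⟨h1, by omega, h⟩
  have h2 := (card_le_card h1).trans (card_insert_le _ _)
  have h5 : W G v y = (univ.filter fun z => G.Adj y z ∧ G.dist v z ≤ G.dist v y ∧
      z ≠ par G v y).card := rfl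
  omega

/-- growth of the spheres -/
theorem sph_growth {q : ℕ} (hc : G.Connected) (hr : G.IsRegularOfDegree (q + 1)) (v : V)
    (j : ℕ) (hj : 1 ≤ j) :
    q * (sph G v j).card ≤ (sph G v (j + 1)).card + ∑ x ∈ sph G v j, W G v x +
      ∑ y ∈ sph G v (j + 1), W G v y := by
  classical
  have h1 : ∑ x ∈ sph G v j, ((sph G v (j + 1)).filter fun z => G.Adj x z).card =
      ∑ y ∈ sph G v (j + 1), ((sph G v j).filter fun z => G.Adj z y).card :=
    sum_card_bipartiteAbove_eq_sum_card_bipartiteBelow (fun x z => G.Adj x z)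
  have h2 : ∀ x ∈ sph G v j, ((sph G v (j + 1)).filter fun z => G.Adj x z).card + W G v x = q := by
    intro x hx
    rw [sph, mem_filter] at hx
    have hxv : x ≠ v := by
      rintro rfl
      rw [SimpleGraph.dist_self] at hx
      omega
    rw [← up_card G hc hr v x hxv]
    congr 2
    ext z
    simp only [sph, mem_filter, mem_univ, true_and, hx.2]
    tauto
  have h3 : ∀ y ∈ sph G v (j + 1), ((sph G v j).filter fun z => G.Adj z y).card ≤ 1 + W G v y := by
    intro y hy
    rw [sph, mem_filter] at hy
    refine le_trans (card_le_card ?_) (down_card G v y)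
    intro z
    simp only [sph, mem_filter, mem_univ, true_and, hy.2]
    rintro ⟨h4, h5⟩
    exact ⟨h5.symm, by omega⟩
  have h4 : ∑ x ∈ sph G v j, (((sph G v (j + 1)).filter fun z => G.Adj x z).card + W G v x) =
      (sph G v j).card * q := by
    rw [sum_congr rfl h2, sum_const, smul_eq_mul]
  have h5 : ∑ y ∈ sph G v (j + 1), ((sph G v j).filter fun z => G.Adj z y).card ≤
      (sph G v (j + 1)).card + ∑ y ∈ sph G v (j + 1), W G v y := by
    calc ∑ y ∈ sph G v (j + 1), ((sph G v j).filter fun z => G.Adj z y).card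
        ≤ ∑ y ∈ sph G v (j + 1), (1 + W G v y) := sum_le_sum h3
      _ = (sph G v (j + 1)).card + ∑ y ∈ sph G v (j + 1), W G v y := by
        rw [sum_add_distrib, sum_const, smul_eq_mul, mul_one]
  rw [sum_add_distrib] at h4
  rw [mul_comm]
  omega

/-- a geodesic inside the ball, prolonged by a step to `x`, is a path of the ball -/
lemma exists_path (hc : G.Connected) (v : V) (a : ℕ) (x z : V) (hx : G.dist v x ≤ a)
    (hxz : G.Adj z x) (hzx : G.dist v z ≤ G.dist v x) :
    ∃ p : (G.induce {u : V | G.dist v u ≤ a}).Walk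
      ⟨v, by simp⟩ ⟨x, hx⟩, p.IsPath ∧
        (p.map (SimpleGraph.Embedding.induce {u : V | G.dist v u ≤ a}).toHom).penultimate = z := by
  classical
  obtain ⟨p, hp⟩ := hc.exists_walk_length_eq_dist v z
  have hpath : p.IsPath := p.isPath_of_length_eq_dist hp
  have hlev : ∀ u ∈ p.support, G.dist v u ≤ G.dist v z ∧ (G.dist v u = G.dist v z → u = z) := by
    intro u hu
    have h1 : (p.takeUntil u hu).length + (p.dropUntil u hu).length = p.length := by
      rw [← SimpleGraph.Walk.length_append, p.take_spec]
    have h2 : G.dist v u ≤ (p.takeUntil u hu).length := SimpleGraph.dist_le _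
    refine ⟨by omega, fun h => ?_⟩
    have h3 : (p.dropUntil u hu).length = 0 := by omega
    exact SimpleGraph.Walk.eq_of_length_eq_zero h3
  have hxs : x ∉ p.support := by
    intro hx'
    have h := hlev x hx'
    have h2 : x = z := h.2 (by omega)
    rw [h2] at hxz
    exact hxz.ne rfl
  have hin : ∀ u ∈ (p.concat hxz).support, u ∈ {u : V | G.dist v u ≤ a} := by
    intro u hu
    rw [SimpleGraph.Walk.support_concat, List.mem_append,
      List.mem_singleton] at hu
    rcases hu with hu | hu
    · have := (hlev u hu).1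
      show G.dist v u ≤ a
      omega
    · rw [hu]; exact hx
  refine ⟨(p.concat hxz).induce _ hin, ?_, ?_⟩
  · have h1 : (p.concat hxz).IsPath := by
      rw [SimpleGraph.Walk.concat_isPath_iff]
      exact ⟨hpath, hxs⟩
    exact SimpleGraph.Walk.IsPath.of_map (f := (SimpleGraph.Embedding.induce _).toHom) (by
      rw [SimpleGraph.Walk.map_induce]
      exact h1)
  · rw [SimpleGraph.Walk.map_induce]
    exact SimpleGraph.Walk.penultimate_concat p hxz

/-- a ball which is a tree has no non-tree edges -/
theorem W_eq_zero (hc : G.Connected) (v : V) (a : ℕ)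
    (ht : (G.induce {u : V | G.dist v u ≤ a}).IsTree) (x : V) (hx : G.dist v x ≤ a) :
    W G v x = 0 := by
  classical
  unfold W
  rw [card_eq_zero, filter_eq_empty_iff]
  rintro z - ⟨h1, h2, h3⟩
  have hxv : x ≠ v := by
    rintro rfl
    rw [SimpleGraph.dist_self] at h2
    have h4 : z = x := ((hc.dist_eq_zero_iff).1 (Nat.le_zero.1 h2)).symm
    exact h1.ne h4.symm
  obtain ⟨hp1, hp2⟩ := par_spec G hc hxv
  obtain ⟨p, hpp, hpe⟩ := exists_path G hc v a x z hx h1.symm h2
  obtain ⟨r, hrp, hre⟩ := exists_path G hc v a x (par G v x) hx hp1.symm (by omega)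
  have h5 : p = r := by
    have h6 := ht.isAcyclic.subsingleton_path ⟨v, by simp⟩ ⟨x, hx⟩
    have h7 : (⟨p, hpp⟩ : (G.induce {u : V | G.dist v u ≤ a}).Path ⟨v, by simp⟩ ⟨x, hx⟩) =
      ⟨r, hrp⟩ := Subsingleton.elim _ _
    exact congrArg Subtype.val h7
  rw [h5, hre] at hpe
  exact h3 hpe.symm

/-- the size of the spheres of a ball which is a tree -/
theorem sph_card_of_tree {q : ℕ} (hc : G.Connected) (hr : G.IsRegularOfDegree (q + 1)) (v : V)
    (a : ℕ) (ht : (G.induce {u : V | G.dist v u ≤ a}).IsTree) (j : ℕ) (hj : j + 1 ≤ a) :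
    (sph G v (j + 1)).card = (q + 1) * q ^ j := by
  classical
  have hW : ∀ i ≤ a, ∑ x ∈ sph G v i, W G v x = 0 := by
    intro i hi
    refine sum_eq_zero fun x hx => ?_
    rw [sph, mem_filter] at hx
    exact W_eq_zero G hc v a ht x (by omega)
  induction j with
  | zero =>
    have h1 : sph G v (0 + 1) = G.neighborFinset v := by
      ext x
      rw [sph, mem_filter, SimpleGraph.mem_neighborFinset]
      simp
    rw [h1, SimpleGraph.card_neighborFinset_eq_degree, hr v]
    simp
  | succ j ih =>
    have h1 := ih (by omega)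
    have h2 := sph_growth G hc hr v (j + 1) (by omega)
    rw [hW (j + 1) (by omega), hW (j + 1 + 1) (by omega), h1] at h2
    have h3 := card_sph_succ_le G hc hr v (j + 1)
    have h4 : q * ((q + 1) * q ^ j) = (q + 1) * q ^ (j + 1) := by ring
    omega

end Pool.Agent.helper99.TV
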