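import Mathlib
import Pool.Agent.helper5.RG.Mai
import Pool.Agent.helper99.TV.Growth

set_option autoImplicit false

/-!
# Typical volume: the spheres of radius up to `(1 - ε) log N`

The profile rises on `[0, a]`, is constant on `[a, k]` and falls on `[k, k + b]`.
-/

namespace Pool.Agent.helper99.TV

open Finset Matrix
open Pool.Agent.helper5.RG

/-- trapezoid profile -/
noncomputable def tz (a k b : ℕ) (j : ℕ) : ℝ :=
  if j ≤ a then (j : ℝ) / a else if j ≤ k then 1 else ((k + b - j : ℕ) : ℝ) / b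

section profile

variable {a k b : ℕ} (ha : 1 ≤ a) (hak : a ≤ k) (hb : 1 ≤ b)

lemma tz_zero : tz a k b 0 = 0 := by simp [tz]

include ha hak in
lemma tz_mid {j : ℕ} (h1 : a ≤ j) (h2 : j ≤ k) : tz a k b j = 1 := by
  unfold tz
  have ha' : (0 : ℝ) < a := by exact_mod_cast ha
  split_ifs with h
  · obtain rfl : j = a := le_antisymm h h1
    exact div_self ha'.ne'
  · rfl

include ha hak hb in
lemma tz_top {j : ℕ} (h1 : k ≤ j) : tz a k b j = ((k + b - j : ℕ) : ℝ) / b := by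
  have hb' : (0 : ℝ) < b := by exact_mod_cast hb
  rcases Nat.eq_or_lt_of_le h1 with h | h
  · subst h
    rw [tz_mid ha hak hak le_rfl, Nat.add_sub_cancel_left, div_self hb'.ne']
  · unfold tz
    rw [if_neg (by omega), if_neg (by omega)]

include ha hak hb in
lemma tz_far {j : ℕ} (h1 : k + b ≤ j) : tz a k b j = 0 := by
  rw [tz_top ha hak hb (by omega)]
  have : k + b - j = 0 := by omega
  rw [this]
  simp

include ha hb in
lemma tz_nonneg (j : ℕ) : 0 ≤ tz a k b j := by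
  unfold tz
  split_ifs <;> positivity

include ha hb in
lemma tz_le_one (j : ℕ) : tz a k b j ≤ 1 := by
  have ha' : (0 : ℝ) < a := by exact_mod_cast ha
  have hb' : (0 : ℝ) < b := by exact_mod_cast hb
  unfold tz
  split_ifs with h h2
  · rw [div_le_one ha']
    exact_mod_cast h
  · exact le_rfl
  · rw [div_le_one hb']
    exact_mod_cast (by omega : k + b - j ≤ b)

include ha hak hb in
lemma tz_lip : ∑ j ∈ range (k + b), (tz a k b (j + 1) - tz a k b j) ^ 2 = 1 / a + 1 / b := by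
  have ha' : (0 : ℝ) < a := by exact_mod_cast ha
  have hb' : (0 : ℝ) < b := by exact_mod_cast hb
  have h1 : ∑ j ∈ range a, (tz a k b (j + 1) - tz a k b j) ^ 2 = 1 / a := by
    have : ∀ j ∈ range a, (tz a k b (j + 1) - tz a k b j) ^ 2 = (1 / (a : ℝ)) ^ 2 := by
      intro j hj
      have hj' := mem_range.1 hj
      unfold tz
      rw [if_pos (by omega), if_pos (by omega)]
      push_cast
      ring
    rw [sum_congr rfl this, sum_const, card_range, nsmul_eq_mul]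
    field_simp
  have h2 : ∑ j ∈ Ico a k, (tz a k b (j + 1) - tz a k b j) ^ 2 = 0 := by
    refine sum_eq_zero fun j hj => ?_
    obtain ⟨h3, h4⟩ := mem_Ico.1 hj
    rw [tz_mid ha hak (by omega) (by omega), tz_mid ha hak (by omega) (by omega)]
    ring
  have h3 : ∑ j ∈ Ico k (k + b), (tz a k b (j + 1) - tz a k b j) ^ 2 = 1 / b := by
    have : ∀ j ∈ Ico k (k + b), (tz a k b (j + 1) - tz a k b j) ^ 2 = (1 / (b : ℝ)) ^ 2 := by
      intro j hj
      obtain ⟨h3, h4⟩ := mem_Ico.1 hj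
      rw [tz_top ha hak hb (by omega), tz_top ha hak hb (by omega)]
      have e : (k + b - j : ℕ) = (k + b - (j + 1) : ℕ) + 1 := by omega
      rw [e]
      push_cast
      ring
    rw [sum_congr rfl this, sum_const, Nat.card_Ico, nsmul_eq_mul]
    have e : k + b - k = b := by omega
    rw [e]
    field_simp
  have h4 := sum_range_add_sum_Ico (fun j => (tz a k b (j + 1) - tz a k b j) ^ 2) hak
  have h5 := sum_range_add_sum_Ico (fun j => (tz a k b (j + 1) - tz a k b j) ^ 2)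
    (show k ≤ k + b by omega)
  rw [← h5, ← h4, h1, h2, h3]
  ring

end profile

variable {V : Type*} [Fintype V] [DecidableEq V] (G : SimpleGraph V) [DecidableRel G.Adj]

variable {q : ℕ} (hq : 2 ≤ q) (hc : G.Connected) (hr : G.IsRegularOfDegree (q + 1)) {η : ℝ}
  (hη : 0 ≤ η) (hs : Spec G (q + 1) (2 * Real.sqrt q + η))

include hq hc hr in
/-- the square of the norm of the test function -/
lemma norm_tf_le' {a k b : ℕ} (ha : 1 ≤ a) (hak : a ≤ k) (hb : 1 ≤ b) (v : V) :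
    tf G q (tz a k b) v ⬝ᵥ tf G q (tz a k b) v ≤ 3 / 2 * ((k : ℝ) + b) := by
  obtain ⟨s0, s1, s2, s3⟩ := sqrt_facts hq
  have e : tf G q (tz a k b) v ⬝ᵥ tf G q (tz a k b) v =
      ∑ x, (fun j => tz a k b j ^ 2 * ((q : ℝ)⁻¹) ^ j) (G.dist v x) := by
    rw [dotProduct]
    refine sum_congr rfl fun x _ => ?_
    simp only [tf]
    rw [← s3, ← pow_mul]
    ring
  rw [e, sum_radial G v (fun j => tz a k b j ^ 2 * ((q : ℝ)⁻¹) ^ j) (k + b)]
  · calc ∑ j ∈ range (k + b), tz a k b j ^ 2 * ((q : ℝ)⁻¹) ^ j * ((sph G v j).card : ℝ)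
        ≤ ∑ j ∈ range (k + b), (3 / 2 : ℝ) := by
          refine sum_le_sum fun j _ => ?_
          have h1 := card_sph_le G hq hc hr v j
          have h2 : tz a k b j ^ 2 ≤ 1 := by
            have := tz_nonneg (k := k) ha hb j
            have := tz_le_one (k := k) ha hb j
            nlinarith
          have hq0 : (0 : ℝ) < q := by exact_mod_cast (by omega : 0 < q)
          have h3 : ((q : ℝ)⁻¹) ^ j * (q : ℝ) ^ j = 1 := by
            rw [← mul_pow, inv_mul_cancel₀ hq0.ne', one_pow]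
          calc tz a k b j ^ 2 * ((q : ℝ)⁻¹) ^ j * ((sph G v j).card : ℝ)
              ≤ 1 * ((q : ℝ)⁻¹) ^ j * (3 / 2 * (q : ℝ) ^ j) := by gcongr
            _ = 3 / 2 * (((q : ℝ)⁻¹) ^ j * (q : ℝ) ^ j) := by ring
            _ = 3 / 2 := by rw [h3, mul_one]
      _ = 3 / 2 * ((k : ℝ) + b) := by
          rw [sum_const, card_range, nsmul_eq_mul]; push_cast; ring
  · intro j hj
    simp only [tz_far ha hak hb hj]
    ring

include hq hc hr in
/-- the sum of the test function -/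
lemma sum_tf_le' {a k b : ℕ} (ha : 1 ≤ a) (hak : a ≤ k) (hb : 1 ≤ b) (v : V) :
    (∑ x, tf G q (tz a k b) v x) ^ 2 ≤ 9 / 4 * ((k : ℝ) + b) ^ 2 * (q : ℝ) ^ (k + b) := by
  obtain ⟨s0, s1, s2, s3⟩ := sqrt_facts hq
  have hq0 : (0 : ℝ) < q := by exact_mod_cast (by omega : 0 < q)
  have hs1 : (1 : ℝ) ≤ Real.sqrt q := by
    rw [Real.one_le_sqrt]
    exact_mod_cast (by omega : 1 ≤ q)
  have e : ∑ x, tf G q (tz a k b) v x =
      ∑ x, (fun j => tz a k b j * ((Real.sqrt q)⁻¹) ^ j) (G.dist v x) := by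
    refine sum_congr rfl fun x _ => ?_
    simp only [tf]
  have h0 : 0 ≤ ∑ x, tf G q (tz a k b) v x := by
    refine sum_nonneg fun x _ => ?_
    rw [tf]
    have := tz_nonneg (k := k) ha hb (G.dist v x)
    positivity
  have h1 : ∑ x, tf G q (tz a k b) v x ≤ 3 / 2 * ((k : ℝ) + b) * (Real.sqrt q) ^ (k + b) := by
    rw [e, sum_radial G v (fun j => tz a k b j * ((Real.sqrt q)⁻¹) ^ j) (k + b)]
    · calc ∑ j ∈ range (k + b), tz a k b j * ((Real.sqrt q)⁻¹) ^ j * ((sph G v j).card : ℝ)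
          ≤ ∑ j ∈ range (k + b), (3 / 2 * (Real.sqrt q) ^ (k + b) : ℝ) := by
            refine sum_le_sum fun j hj => ?_
            have h1 := card_sph_le G hq hc hr v j
            have h2 := tz_nonneg (k := k) ha hb j
            have h2' := tz_le_one (k := k) ha hb j
            have h3 : ((Real.sqrt q)⁻¹) ^ j * (q : ℝ) ^ j = Real.sqrt q ^ j := by
              rw [← mul_pow]
              congr 1
              rw [inv_mul_eq_div, div_eq_iff s0.ne', s1]
            have h4 : Real.sqrt q ^ j ≤ Real.sqrt q ^ (k + b) :=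
              pow_le_pow_right₀ hs1 (by have := mem_range.1 hj; omega)
            calc tz a k b j * ((Real.sqrt q)⁻¹) ^ j * ((sph G v j).card : ℝ)
                ≤ 1 * ((Real.sqrt q)⁻¹) ^ j * (3 / 2 * (q : ℝ) ^ j) := by gcongr
              _ = 3 / 2 * (((Real.sqrt q)⁻¹) ^ j * (q : ℝ) ^ j) := by ring
              _ ≤ 3 / 2 * Real.sqrt q ^ (k + b) := by rw [h3]; gcongr
        _ = 3 / 2 * ((k : ℝ) + b) * Real.sqrt q ^ (k + b) := by
            rw [sum_const, card_range, nsmul_eq_mul]; push_cast; ring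
    · intro j hj
      simp only [tz_far ha hak hb hj]
      ring
  calc (∑ x, tf G q (tz a k b) v x) ^ 2 ≤ (3 / 2 * ((k : ℝ) + b) * (Real.sqrt q) ^ (k + b)) ^ 2 := by
        gcongr
    _ = 9 / 4 * ((k : ℝ) + b) ^ 2 * (Real.sqrt q * Real.sqrt q) ^ (k + b) := by ring
    _ = 9 / 4 * ((k : ℝ) + b) ^ 2 * (q : ℝ) ^ (k + b) := by rw [s1]

/-- the error term -/
noncomputable def err (q a k b : ℕ) (η N : ℝ) : ℝ :=
  3 * ((q : ℝ) + 1) * (1 / a + 1 / b) + 6 * η * (k + b) +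
    9 * ((q : ℝ) + 1) * (k + b) ^ 2 * (q : ℝ) ^ (k + b) / N

include hq hc hr hη hs in
/-- the weight of the defects on the levels `a, ..., k` -/
theorem defect_le {a k b : ℕ} (ha : 1 ≤ a) (hak : a ≤ k) (hb : 1 ≤ b) (v : V) :
    ∑ j ∈ Icc a k, ((q : ℝ)⁻¹) ^ j * ∑ x ∈ sph G v j, (W G v x : ℝ) ≤
      err q a k b η (Fintype.card V) := by
  classical
  obtain ⟨s0, s1, s2, s3⟩ := sqrt_facts hq
  have hq' : (2 : ℝ) ≤ q := by exact_mod_cast hq
  have hN0 : (0 : ℝ) < Fintype.card V := by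
    exact_mod_cast Fintype.card_pos_iff.2 ⟨v⟩
  have hI := quad_tf_ge G hq hc hr (tz a k b) tz_zero (M := k + b)
    (fun j hj => tz_far ha hak hb hj) v
  have hQ := quad_le G (d := q + 1) (L := 2 * Real.sqrt q + η) (by positivity) hc hr hs
    (tf G q (tz a k b) v)
  have hn := norm_tf_le' G hq hc hr ha hak hb v
  have hsum := sum_tf_le' G hq hc hr ha hak hb v
  rw [tz_lip ha hak hb] at hI
  set s : ℝ := (Real.sqrt q)⁻¹ with hsdef
  have hspos : 0 < s := inv_pos.2 s0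
  -- lower bound for the gain
  have hg : ∑ j ∈ Icc a k, ((q : ℝ)⁻¹) ^ j * ∑ x ∈ sph G v j, (W G v x : ℝ) ≤
      ∑ x, (W G v x : ℝ) * tf G q (tz a k b) v x ^ 2 := by
    have e1 : ∀ j ∈ Icc a k, ((q : ℝ)⁻¹) ^ j * ∑ x ∈ sph G v j, (W G v x : ℝ) =
        ∑ x ∈ sph G v j, (W G v x : ℝ) * tf G q (tz a k b) v x ^ 2 := by
      intro j hj
      obtain ⟨h1, h2⟩ := mem_Icc.1 hj
      rw [mul_sum]
      refine sum_congr rfl fun x hx => ?_
      rw [sph, mem_filter] at hx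
      rw [tf, hx.2, tz_mid ha hak h1 h2, one_mul, ← s3, ← pow_mul, ← pow_mul, mul_comm 2,
        mul_comm]
    rw [sum_congr rfl e1]
    have e2 : ∑ j ∈ Icc a k, ∑ x ∈ sph G v j, (W G v x : ℝ) * tf G q (tz a k b) v x ^ 2 =
        ∑ x ∈ (Icc a k).biUnion fun j => sph G v j,
          (W G v x : ℝ) * tf G q (tz a k b) v x ^ 2 := by
      rw [sum_biUnion]
      intro i _ j _ hij
      rw [Function.onFun, disjoint_left]
      intro x hx hx'
      rw [sph, mem_filter] at hx hx'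
      exact hij (hx.2.symm.trans hx'.2)
    rw [e2]
    exact sum_le_sum_of_subset_of_nonneg (subset_univ _) fun x _ _ => by positivity
  set P : ℝ := ∑ j ∈ Icc a k, ((q : ℝ)⁻¹) ^ j * ∑ x ∈ sph G v j, (W G v x : ℝ) with hP
  have hP0 : 0 ≤ P := sum_nonneg fun j _ => by positivity
  have heta : η * (tf G q (tz a k b) v ⬝ᵥ tf G q (tz a k b) v) ≤ η * (3 / 2 * ((k : ℝ) + b)) := by
    gcongr
  have htriv : ((q + 1 : ℕ) : ℝ) * (∑ x, tf G q (tz a k b) v x) ^ 2 / (Fintype.card V : ℝ) ≤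
      ((q : ℝ) + 1) * (9 / 4 * ((k : ℝ) + b) ^ 2 * (q : ℝ) ^ (k + b)) / (Fintype.card V : ℝ) := by
    push_cast
    gcongr
  have h1s : (1 : ℝ) / 4 ≤ 1 - s := by linarith
  have hloss : ((q : ℝ) + 1) * s * (1 / (a : ℝ) + 1 / (b : ℝ)) ≤
      ((q : ℝ) + 1) * (3 / 4) * (1 / a + 1 / b) := by gcongr
  have hfin : (1 - s) * P ≤ ((q : ℝ) + 1) * (3 / 4) * (1 / a + 1 / b) + η * (3 / 2 * ((k : ℝ) + b))
      + ((q : ℝ) + 1) * (9 / 4 * ((k : ℝ) + b) ^ 2 * (q : ℝ) ^ (k + b)) / (Fintype.card V : ℝ) := by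
    have : (1 - s) * P ≤ (1 - s) * ∑ x, (W G v x : ℝ) * tf G q (tz a k b) v x ^ 2 := by
      have h4 : 0 ≤ 1 - s := by linarith
      gcongr
    linarith
  have hfin2 : (1 : ℝ) / 4 * P ≤ (1 - s) * P := by gcongr
  have e3 : err q a k b η (Fintype.card V) =
      4 * (((q : ℝ) + 1) * (3 / 4) * (1 / a + 1 / b) + η * (3 / 2 * ((k : ℝ) + b))
      + ((q : ℝ) + 1) * (9 / 4 * ((k : ℝ) + b) ^ 2 * (q : ℝ) ^ (k + b)) / (Fintype.card V : ℝ)) := by
    unfold err
    ring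
  rw [e3]
  linarith

include hq hc hr in
/-- the decrease of the normalised sphere sizes -/
theorem sphere_decrease {a : ℕ} (ha : 1 ≤ a) (v : V) (j : ℕ) :
    ((q : ℝ)⁻¹) ^ a * ((sph G v a).card : ℝ) -
      3 / 2 * ∑ i ∈ Icc a (a + j), ((q : ℝ)⁻¹) ^ i * ∑ x ∈ sph G v i, (W G v x : ℝ) ≤
    ((q : ℝ)⁻¹) ^ (a + j) * ((sph G v (a + j)).card : ℝ) -
      ((q : ℝ)⁻¹) ^ (a + j) * (1 / 2 * ∑ x ∈ sph G v (a + j), (W G v x : ℝ)) := by
  have hq' : (2 : ℝ) ≤ q := by exact_mod_cast hq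
  have hq0 : (0 : ℝ) < q := by linarith
  induction j with
  | zero =>
    simp only [add_zero, Icc_self, sum_singleton]
    have h1 : 0 ≤ ((q : ℝ)⁻¹) ^ a * ∑ x ∈ sph G v a, (W G v x : ℝ) := by positivity
    linarith
  | succ j ih =>
    have h1 := sph_growth G hc hr v (a + j) (by omega)
    have h2 : (q : ℝ) * ((sph G v (a + j)).card : ℝ) ≤ ((sph G v (a + j + 1)).card : ℝ) +
        ∑ x ∈ sph G v (a + j), (W G v x : ℝ) + ∑ y ∈ sph G v (a + j + 1), (W G v y : ℝ) := by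
      exact_mod_cast h1
    have e1 : ((q : ℝ)⁻¹) ^ (a + j) = q * ((q : ℝ)⁻¹) ^ (a + j + 1) := by
      rw [pow_succ]
      field_simp
    have h3 : ((q : ℝ)⁻¹) ^ (a + j + 1) * ((q : ℝ) * ((sph G v (a + j)).card : ℝ)) ≤
        ((q : ℝ)⁻¹) ^ (a + j + 1) * (((sph G v (a + j + 1)).card : ℝ) +
        ∑ x ∈ sph G v (a + j), (W G v x : ℝ) + ∑ y ∈ sph G v (a + j + 1), (W G v y : ℝ)) := by
      gcongr
    have e2 : Icc a (a + (j + 1)) = insert (a + j + 1) (Icc a (a + j)) := by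
      ext i
      simp only [mem_Icc, mem_insert]
      omega
    have e3 : a + (j + 1) = a + j + 1 := by omega
    rw [e2, sum_insert (by simp), e3]
    set X : ℝ := ((q : ℝ)⁻¹) ^ (a + j + 1) with hX
    have hX0 : 0 < X := by positivity
    set S1 : ℝ := ∑ x ∈ sph G v (a + j), (W G v x : ℝ) with hS1
    have hS1' : 0 ≤ S1 := sum_nonneg fun _ _ => Nat.cast_nonneg _
    set S2 : ℝ := ∑ y ∈ sph G v (a + j + 1), (W G v y : ℝ) with hS2
    rw [e1] at ih
    have h4 : X * S1 ≤ q * X * (1 / 2 * S1) := by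
      have : 0 ≤ X * S1 := by positivity
      nlinarith
    nlinarith

include hq hc hr hη hs in
/-- the spheres around a vertex whose ball of radius `a` is a tree -/
theorem sphere_ge {a k b : ℕ} (ha : 1 ≤ a) (hak : a ≤ k) (hb : 1 ≤ b) (v : V)
    (ht : (G.induce {u : V | G.dist v u ≤ a}).IsTree) (j : ℕ) (hj : j + 1 ≤ k) :
    (1 - 3 / 2 * err q a k b η (Fintype.card V)) * (((q : ℝ) + 1) * (q : ℝ) ^ j) ≤
      ((sph G v (j + 1)).card : ℝ) := by
  have hq' : (2 : ℝ) ≤ q := by exact_mod_cast hq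
  have hq0 : (0 : ℝ) < q := by linarith
  have hD := defect_le G hq hc hr hη hs ha hak hb v
  have hD0 : 0 ≤ ∑ j ∈ Icc a k, ((q : ℝ)⁻¹) ^ j * ∑ x ∈ sph G v j, (W G v x : ℝ) :=
    sum_nonneg fun j _ => by positivity
  have herr : 0 ≤ err q a k b η (Fintype.card V) := hD0.trans hD
  rcases Nat.lt_or_ge a (j + 1) with h | h
  · obtain ⟨i, hi⟩ : ∃ i, j + 1 = a + i := ⟨j + 1 - a, by omega⟩
    have h1 := sphere_decrease G hq hc hr ha v i
    obtain ⟨a', rfl⟩ : ∃ a', a = a' + 1 := ⟨a - 1, by omega⟩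
    rw [sph_card_of_tree G hc hr v (a' + 1) ht a' le_rfl] at h1
    have h2 : ∑ j ∈ Icc (a' + 1) (a' + 1 + i), ((q : ℝ)⁻¹) ^ j * ∑ x ∈ sph G v j, (W G v x : ℝ) ≤
        ∑ j ∈ Icc (a' + 1) k, ((q : ℝ)⁻¹) ^ j * ∑ x ∈ sph G v j, (W G v x : ℝ) := by
      refine sum_le_sum_of_subset_of_nonneg (Icc_subset_Icc le_rfl (by omega)) fun j _ _ => ?_
      positivity
    have h3 : 0 ≤ ((q : ℝ)⁻¹) ^ (a' + 1 + i) *
        (1 / 2 * ∑ x ∈ sph G v (a' + 1 + i), (W G v x : ℝ)) := by positivity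
    have h4 : ((q : ℝ)⁻¹) ^ (a' + 1) * (((q + 1) * q ^ a' : ℕ) : ℝ) = ((q : ℝ) + 1) / q := by
      push_cast
      rw [pow_succ, inv_pow]
      field_simp
    rw [h4] at h1
    rw [hi]
    have h5 : ((q : ℝ) + 1) / q - 3 / 2 * err q (a' + 1) k b η (Fintype.card V) ≤
        ((q : ℝ)⁻¹) ^ (a' + 1 + i) * ((sph G v (a' + 1 + i)).card : ℝ) := by linarith
    have h6 : (1 - 3 / 2 * err q (a' + 1) k b η (Fintype.card V)) * (((q : ℝ) + 1) / q) ≤
        ((q : ℝ) + 1) / q - 3 / 2 * err q (a' + 1) k b η (Fintype.card V) := by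
      have : (1 : ℝ) ≤ ((q : ℝ) + 1) / q := by
        rw [le_div_iff₀ hq0]
        linarith
      nlinarith
    have h7 := mul_le_mul_of_nonneg_left (h6.trans h5) (show 0 ≤ (q : ℝ) ^ (a' + 1 + i) by positivity)
    have e1 : (q : ℝ) ^ (a' + 1 + i) * (((q : ℝ)⁻¹) ^ (a' + 1 + i) *
        ((sph G v (a' + 1 + i)).card : ℝ)) = ((sph G v (a' + 1 + i)).card : ℝ) := by
      rw [← mul_assoc, ← mul_pow, mul_inv_cancel₀ hq0.ne', one_pow, one_mul]
    have e2 : (q : ℝ) ^ (a' + 1 + i) * ((1 - 3 / 2 * err q (a' + 1) k b η (Fintype.card V)) *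
        (((q : ℝ) + 1) / q)) =
        (1 - 3 / 2 * err q (a' + 1) k b η (Fintype.card V)) * (((q : ℝ) + 1) * (q : ℝ) ^ j) := by
      rw [← hi, pow_succ]
      field_simp
    rw [e1, e2] at h7
    exact h7
  · rw [sph_card_of_tree G hc hr v a ht j h]
    push_cast
    have : 0 ≤ ((q : ℝ) + 1) * (q : ℝ) ^ j := by positivity
    nlinarith

end Pool.Agent.helper99.TV
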