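import Mathlib
import Pool.Agent.helper5.RG.Fin
import Pool.Agent.helper99.TV.Energy

set_option autoImplicit false

/-!
# Typical volume: finite graphs on `Fin N` and sequences
-/

namespace Pool.Agent.helper99.TV

open Finset Filter
open Pool.Agent.helper5.RG

/-- finite form -/
theorem sphere_ge_fin (d : ℕ) (hd : 3 ≤ d) (N : ℕ) (G : SimpleGraph (Fin N))
    [DecidableRel G.Adj] (η : ℝ) (hη : 0 ≤ η) (hc : G.Connected) (hr : G.IsRegularOfDegree d)
    (hs : ∀ μ : ℝ, (∃ x : Fin N → ℝ, x ≠ 0 ∧ Matrix.mulVec (G.adjMatrix ℝ) x = μ • x) →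
      |μ| = (d : ℝ) ∨ |μ| ≤ 2 * Real.sqrt ((d : ℝ) - 1) + η)
    (a k b : ℕ) (ha : 1 ≤ a) (hak : a ≤ k) (hb : 1 ≤ b) (v : Fin N)
    (ht : (G.induce {u : Fin N | G.dist v u ≤ a}).IsTree) (j : ℕ) (hj : 1 ≤ j) (hjk : j ≤ k) :
    (1 - (5 * (d : ℝ) * (1 / a + 1 / b) + 9 * η * (k + b) +
      14 * (d : ℝ) * (k + b) ^ 2 * ((d : ℝ) - 1) ^ (k + b) / N)) *
        ((d : ℝ) * ((d : ℝ) - 1) ^ (j - 1)) ≤ ({u : Fin N | G.dist v u = j}.ncard : ℝ) := by
  obtain ⟨q, rfl⟩ : ∃ q, d = q + 1 := ⟨d - 1, by omega⟩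
  obtain ⟨i, rfl⟩ : ∃ i, j = i + 1 := ⟨j - 1, by omega⟩
  have hq : 2 ≤ q := by omega
  have hq' : (2 : ℝ) ≤ q := by exact_mod_cast hq
  have e1 : (((q + 1 : ℕ) : ℝ) - 1) = q := by push_cast; ring
  rw [e1] at hs ⊢
  have h := sphere_ge G hq hc hr hη hs ha hak hb v ht i hjk
  have e2 : ({u : Fin N | G.dist v u = i + 1}.ncard : ℝ) = ((sph G v (i + 1)).card : ℝ) := by
    have : {u : Fin N | G.dist v u = i + 1} = (sph G v (i + 1) : Set (Fin N)) := by
      ext u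
      simp [sph]
    rw [this, Set.ncard_coe_finset]
  rw [e2]
  refine le_trans ?_ h
  have ha' : (0 : ℝ) < a := by exact_mod_cast ha
  have hb' : (0 : ℝ) < b := by exact_mod_cast hb
  have hp : 0 ≤ ((q : ℝ) + 1) * (q : ℝ) ^ i := by positivity
  push_cast
  refine mul_le_mul_of_nonneg_right ?_ hp
  unfold err
  rw [Fintype.card_fin]
  have h1 : 0 ≤ ((q : ℝ) + 1) * (1 / (a : ℝ) + 1 / b) := by positivity
  have h2 : 0 ≤ ((q : ℝ) + 1) * ((k : ℝ) + b) ^ 2 * (q : ℝ) ^ (k + b) / (N : ℝ) := by positivity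
  have e3 : 14 * ((q : ℝ) + 1) * ((k : ℝ) + b) ^ 2 * (q : ℝ) ^ (k + b) / (N : ℝ) =
      14 * (((q : ℝ) + 1) * ((k : ℝ) + b) ^ 2 * (q : ℝ) ^ (k + b) / (N : ℝ)) := by ring
  have e4 : 9 * ((q : ℝ) + 1) * ((k : ℝ) + b) ^ 2 * (q : ℝ) ^ (k + b) / (N : ℝ) =
      9 * (((q : ℝ) + 1) * ((k : ℝ) + b) ^ 2 * (q : ℝ) ^ (k + b) / (N : ℝ)) := by ring
  rw [e3, e4]
  linarith

/-- sequences -/
theorem seq_volume (d : ℕ) (hd : 3 ≤ d) (ε : ℝ) (hε0 : 0 < ε) (hε1 : ε < 1)
    (N : ℕ → ℕ) (G : ∀ n, SimpleGraph (Fin (N n))) [∀ n, DecidableRel (G n).Adj] (η : ℕ → ℝ)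
    (hη0 : ∀ n, 0 ≤ η n) (hN : Tendsto N atTop atTop)
    (hη : Tendsto (fun n => η n * Real.log (N n)) atTop (nhds 0))
    (hG : ∀ n, (G n).Connected ∧ (G n).IsRegularOfDegree d ∧
      ∀ μ : ℝ, (∃ x : Fin (N n) → ℝ, x ≠ 0 ∧
        Matrix.mulVec ((G n).adjMatrix ℝ) x = μ • x) →
          |μ| = (d : ℝ) ∨ |μ| ≤ 2 * Real.sqrt ((d : ℝ) - 1) + η n) :
    Tendsto (fun n => (({v : Fin (N n) | ∀ j : ℕ, 1 ≤ j →
      (j : ℝ) ≤ (1 - ε) * (Real.log (N n) / Real.log ((d : ℝ) - 1)) →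
        (1 - ε) * ((d : ℝ) * ((d : ℝ) - 1) ^ (j - 1)) ≤
          ({u : Fin (N n) | (G n).dist v u = j}.ncard : ℝ)}.ncard : ℝ) / (N n : ℝ)))
      atTop (nhds 1) := by
  set lq : ℝ := Real.log ((d : ℝ) - 1) with hlq
  have hd' : (3 : ℝ) ≤ d := by exact_mod_cast hd
  have hlqpos : 0 < lq := Real.log_pos (by linarith)
  set x : ℕ → ℝ := fun n => Real.log (N n) with hx
  have hNr : Tendsto (fun n => ((N n : ℕ) : ℝ)) atTop atTop := tendsto_natCast_atTop_atTop.comp hN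
  have hxt : Tendsto x atTop atTop := Real.tendsto_log_atTop.comp hNr
  -- the radius `a`
  obtain ⟨a, ha⟩ : ∃ a : ℕ, 20 * (d : ℝ) / ε < a := exists_nat_gt _
  have hdpos : (0 : ℝ) < d := by linarith
  have ha0 : (0 : ℝ) < a := lt_trans (by positivity) ha
  have ha1 : 1 ≤ a := by exact_mod_cast ha0
  have ha2 : 5 * (d : ℝ) * (1 / a) ≤ ε / 4 := by
    rw [div_lt_iff₀ hε0] at ha
    rw [mul_one_div, div_le_iff₀ ha0]
    linarith
  -- the bad vertices
  set C : ℝ := 663552 * (d : ℝ) ^ 2 * (36 * Real.log ((d : ℝ) - 1) ^ 2 + 16) *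
    ((a : ℝ) + 1) ^ 2 * ((d : ℝ) - 1) ^ a with hC
  have hηt : Tendsto η atTop (nhds 0) := by
    have h1 : Tendsto (fun n => (x n)⁻¹) atTop (nhds 0) := tendsto_inv_atTop_zero.comp hxt
    have h2 := hη.mul h1
    rw [mul_zero] at h2
    refine h2.congr' ?_
    filter_upwards [hxt.eventually_gt_atTop 0] with n hn
    rw [hx] at hn ⊢
    simp only at hn ⊢
    field_simp
  have hlow : Tendsto (fun n => 1 - C * (η n + 1 / x n ^ 2)) atTop (nhds 1) := by
    have h1 : Tendsto (fun n => (x n)⁻¹) atTop (nhds 0) := tendsto_inv_atTop_zero.comp hxt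
    have h2 : Tendsto (fun n => 1 / x n ^ 2) atTop (nhds 0) := by
      have := h1.mul h1
      rw [mul_zero] at this
      refine this.congr fun n => ?_
      rw [one_div, sq, mul_inv]
    have h3 := ((hηt.add h2).const_mul C).const_sub 1
    simpa using h3
  refine tendsto_of_tendsto_of_tendsto_of_le_of_le' hlow tendsto_const_nhds ?_ ?_
  · -- eventual inequalities
    have hev0 : ∀ᶠ n in atTop, (3 : ℝ) ≤ (N n : ℝ) := hNr.eventually_ge_atTop 3
    have hev1 : ∀ᶠ n in atTop, lq * (a + 1) / (1 - ε) ≤ x n := hxt.eventually_ge_atTop _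
    have hev2 : ∀ᶠ n in atTop, (2 * lq / ε) * (20 * (d : ℝ) / ε + 1) ≤ x n :=
      hxt.eventually_ge_atTop _
    have hev3 : ∀ᶠ n in atTop, η n * x n ≤ ε * lq / 36 :=
      hη.eventually_le_const (by positivity)
    have hlim : Tendsto (fun n => 14 * (d : ℝ) * ((1 / lq * x n + 1) ^ 2 *
        Real.exp (-(ε / 2 * x n)))) atTop (nhds 0) := by
      have h1 := (tendsto_aux (A := 1 / lq) (b := ε / 2) (by linarith)).comp hxt
      have h2 := h1.const_mul (14 * (d : ℝ))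
      rw [mul_zero] at h2
      exact h2
    have hev4 : ∀ᶠ n in atTop, 14 * (d : ℝ) * ((1 / lq * x n + 1) ^ 2 *
        Real.exp (-(ε / 2 * x n))) ≤ ε / 4 := hlim.eventually_le_const (by positivity)
    filter_upwards [hev0, hev1, hev2, hev3, hev4] with n h0 h1 h2 h3 h4
    have hNpos : (0 : ℝ) < N n := by linarith
    have hx1 : 0 < x n := Real.log_pos (by linarith)
    have hexpx : Real.exp (x n) = N n := Real.exp_log hNpos
    obtain ⟨hcn, hrn, hsn⟩ := hG n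
    set k : ℕ := ⌊(1 - ε) * (x n / lq)⌋₊ with hk
    set b : ℕ := ⌊ε / 2 * (x n / lq)⌋₊ with hb
    have h1ε : 0 < 1 - ε := by linarith
    have hk0 : 0 ≤ (1 - ε) * (x n / lq) := by positivity
    have hb0 : 0 ≤ ε / 2 * (x n / lq) := by positivity
    have hkle : (k : ℝ) ≤ (1 - ε) * (x n / lq) := Nat.floor_le hk0
    have hble : (b : ℝ) ≤ ε / 2 * (x n / lq) := Nat.floor_le hb0
    have hkgt : (1 - ε) * (x n / lq) < k + 1 := Nat.lt_floor_add_one _
    have hbgt : ε / 2 * (x n / lq) < b + 1 := Nat.lt_floor_add_one _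
    have hak : a ≤ k := by
      have h5 : (a : ℝ) + 1 ≤ (1 - ε) * (x n / lq) := by
        rw [div_le_iff₀ h1ε] at h1
        rw [← mul_div_assoc, le_div_iff₀ hlqpos]
        linarith
      have h6 : (a : ℝ) < k + 1 := by linarith
      have h7 : a < k + 1 := by exact_mod_cast h6
      omega
    have hbd : 20 * (d : ℝ) / ε ≤ b := by
      have h5 : 20 * (d : ℝ) / ε + 1 ≤ ε / 2 * (x n / lq) := by
        have h6 : 20 * (d : ℝ) / ε + 1 = ε / 2 *
            (((2 * lq / ε) * (20 * (d : ℝ) / ε + 1)) / lq) := by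
          field_simp
        rw [h6]
        gcongr
      linarith
    have hbpos : (0 : ℝ) < b := lt_of_lt_of_le (by positivity) hbd
    have hb1 : 1 ≤ b := by exact_mod_cast hbpos
    have hb2 : 5 * (d : ℝ) * (1 / b) ≤ ε / 4 := by
      rw [div_le_iff₀ hε0] at hbd
      rw [mul_one_div, div_le_iff₀ hbpos]
      linarith
    have hkb : (k : ℝ) + b ≤ (1 - ε / 2) * (x n / lq) := by linarith
    have hkb' : (k : ℝ) + b ≤ x n / lq := by
      refine hkb.trans ?_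
      have : 0 ≤ x n / lq := by positivity
      nlinarith
    have hη3 : 9 * η n * ((k : ℝ) + b) ≤ ε / 4 := by
      have h5 : 9 * η n * ((k : ℝ) + b) ≤ 9 * η n * (x n / lq) := by
        have := hη0 n
        gcongr
      have h6 : 9 * η n * (x n / lq) = 9 * (η n * x n) / lq := by ring
      have h7 : 9 * (η n * x n) / lq ≤ ε / 4 := by
        rw [div_le_iff₀ hlqpos]
        linarith
      linarith
    have hpow : ((d : ℝ) - 1) ^ (k + b) / (N n : ℝ) ≤ Real.exp (-(ε / 2 * x n)) := by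
      have h5 : ((d : ℝ) - 1) = Real.exp lq := (Real.exp_log (by linarith)).symm
      rw [h5, ← Real.exp_nat_mul, ← hexpx, ← Real.exp_sub]
      refine Real.exp_le_exp.2 ?_
      push_cast
      have h6 : ((k : ℝ) + b) * lq ≤ (1 - ε / 2) * (x n / lq) * lq := by gcongr
      have h7 : (1 - ε / 2) * (x n / lq) * lq = (1 - ε / 2) * x n := by field_simp
      linarith
    have hlast : 14 * (d : ℝ) * ((k : ℝ) + b) ^ 2 * ((d : ℝ) - 1) ^ (k + b) / (N n : ℝ) ≤ ε / 4 := by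
      refine le_trans ?_ h4
      have e5 : 14 * (d : ℝ) * ((k : ℝ) + b) ^ 2 * ((d : ℝ) - 1) ^ (k + b) / (N n : ℝ) =
          14 * (d : ℝ) * (((k : ℝ) + b) ^ 2 * (((d : ℝ) - 1) ^ (k + b) / (N n : ℝ))) := by ring
      rw [e5]
      have h6 : (k : ℝ) + b ≤ 1 / lq * x n + 1 := by
        have : 1 / lq * x n = x n / lq := by ring
        linarith
      have h7 : 0 ≤ ((d : ℝ) - 1) ^ (k + b) / (N n : ℝ) := by
        have : (0 : ℝ) ≤ (d : ℝ) - 1 := by linarith
        positivity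
      gcongr
    have herr : 5 * (d : ℝ) * (1 / a + 1 / b) + 9 * η n * (k + b) +
      14 * (d : ℝ) * (k + b) ^ 2 * ((d : ℝ) - 1) ^ (k + b) / N n ≤ ε := by
      have e6 : 5 * (d : ℝ) * (1 / (a : ℝ) + 1 / b) = 5 * (d : ℝ) * (1 / a) + 5 * d * (1 / b) := by
        ring
      rw [e6]
      linarith
    -- the good set contains the vertices with a tree ball
    have hsub : {v : Fin (N n) | ((G n).induce {u : Fin (N n) | (G n).dist v u ≤ a}).IsTree} ⊆
        {v : Fin (N n) | ∀ j : ℕ, 1 ≤ j → (j : ℝ) ≤ (1 - ε) * (x n / lq) →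
          (1 - ε) * ((d : ℝ) * ((d : ℝ) - 1) ^ (j - 1)) ≤
            ({u : Fin (N n) | (G n).dist v u = j}.ncard : ℝ)} := by
      intro v hv j hj hjx
      have hjk : j ≤ k := Nat.le_floor hjx
      have h5 := sphere_ge_fin d hd (N n) (G n) (η n) (hη0 n) hcn hrn hsn a k b ha1 hak hb1 v hv
        j hj hjk
      refine le_trans ?_ h5
      have h6 : (0 : ℝ) ≤ (d : ℝ) * ((d : ℝ) - 1) ^ (j - 1) := by
        have : (0 : ℝ) ≤ (d : ℝ) - 1 := by linarith
        positivity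
      refine mul_le_mul_of_nonneg_right ?_ h6
      linarith
    have hcard := Set.ncard_le_ncard hsub (Set.toFinite _)
    have hcard' : ({v : Fin (N n) | ((G n).induce {u : Fin (N n) |
        (G n).dist v u ≤ a}).IsTree}.ncard : ℝ) ≤ ({v : Fin (N n) | ∀ j : ℕ, 1 ≤ j →
          (j : ℝ) ≤ (1 - ε) * (x n / lq) → (1 - ε) * ((d : ℝ) * ((d : ℝ) - 1) ^ (j - 1)) ≤
            ({u : Fin (N n) | (G n).dist v u = j}.ncard : ℝ)}.ncard : ℝ) := by exact_mod_cast hcard
    have hbad := bad_bound' d hd (N n) (G n) (η n) (hη0 n) hcn hrn hsn a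
    have hcompl : ({v : Fin (N n) | ((G n).induce {u : Fin (N n) | (G n).dist v u ≤ a}).IsTree}.ncard : ℝ) =
        N n - ({v : Fin (N n) | ¬ ((G n).induce {u : Fin (N n) | (G n).dist v u ≤ a}).IsTree}.ncard : ℝ) := by
      have h1 := Set.ncard_add_ncard_compl
        {v : Fin (N n) | ((G n).induce {u : Fin (N n) | (G n).dist v u ≤ a}).IsTree}
      rw [Nat.card_eq_fintype_card, Fintype.card_fin] at h1
      have h2 : {v : Fin (N n) | ((G n).induce {u : Fin (N n) | (G n).dist v u ≤ a}).IsTree}ᶜ =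
        {v : Fin (N n) | ¬ ((G n).induce {u : Fin (N n) | (G n).dist v u ≤ a}).IsTree} := rfl
      rw [h2] at h1
      have h3 : ({v : Fin (N n) | ((G n).induce {u : Fin (N n) |
          (G n).dist v u ≤ a}).IsTree}.ncard : ℝ) +
          ({v : Fin (N n) | ¬ ((G n).induce {u : Fin (N n) | (G n).dist v u ≤ a}).IsTree}.ncard : ℝ)
            = N n := by exact_mod_cast h1
      linarith
    rw [le_div_iff₀ hNpos]
    rw [← hC] at hbad
    have e7 : (1 - C * (η n + 1 / x n ^ 2)) * (N n : ℝ) =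
        N n - C * (η n + 1 / Real.log (N n) ^ 2) * N n := by ring
    rw [e7]
    linarith
  · filter_upwards with n
    refine div_le_one_of_le₀ ?_ (Nat.cast_nonneg _)
    have := Set.ncard_le_card {v : Fin (N n) | ∀ j : ℕ, 1 ≤ j →
      (j : ℝ) ≤ (1 - ε) * (Real.log (N n) / lq) →
        (1 - ε) * ((d : ℝ) * ((d : ℝ) - 1) ^ (j - 1)) ≤
          ({u : Fin (N n) | (G n).dist v u = j}.ncard : ℝ)}
    rw [Nat.card_eq_fintype_card, Fintype.card_fin] at this
    exact_mod_cast this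

end Pool.Agent.helper99.TV
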